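import Pool.Agent.Helper95.BD.S10

/-!
# Graphs of girth at least 5 with many vertices of degree at least `m(G) - 1` or `m(G) - 2`

There is `m₀` such that for every finite graph `G` of girth at least 5, and more generally for every
finite graph `G` without 4-cycles, with `m = m(G) ≥ m₀`, for `i = 0, 1` and every `s ≥ 1`: if `D` is a
set of at least `300 s m` vertices of degree at least `m - 1 - i` such that every vertex of degree
less than `m` has at most `s` neighbours in `D`, then `b(G) ≥ m - i`.
-/

set_option autoImplicit false

namespace Pool.Agent.Results.MP_0096d6_co.ManyCandidates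

open Pool.Agent.Helper95.BC

open Classical in
theorem result : ∃ m₀ : ℕ, ∀ (V : Type) [Fintype V] (G : SimpleGraph V),
    5 ≤ G.egirth ∨ C4Free G → m₀ ≤ mDegree G → ∀ (i s : ℕ) (D : Finset V), i ≤ 1 → 1 ≤ s →
    300 * s * mDegree G ≤ D.card → (∀ v ∈ D, mDegree G ≤ (nbr G v).card + 1 + i) →
    (∀ v, (nbr G v).card < mDegree G → (nbr G v ∩ D).card ≤ s) → mDegree G ≤ bChrom G + i :=
  Pool.Agent.Helper95.BD.many_all

end Pool.Agent.Results.MP_0096d6_co.ManyCandidates
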