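import Pool.Agent.Helper95.BC.P7

/-!
# The b-chromatic number of graphs of girth at least 5 with many vertices of large degree

For every `ε > 0` there is `k₀` such that for every finite graph `G` of girth at least 5, and more
generally for every finite graph `G` without 4-cycles:
(1) if `k ≥ k₀` and at least `k` vertices have degree at least `(1 + ε) k`, then `b(G) ≥ k`;
(2) if `m(G) ≥ k₀`, then `b(G) ≥ (1 - ε) m(G)`.
-/

set_option autoImplicit false

namespace Pool.Agent.Results.MP_0096d6_co.SlackDegrees

open Pool.Agent.Helper95.BC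

open Classical in
theorem result (ε : ℝ) (hε : 0 < ε) :
    ∃ k₀ : ℕ, ∀ (V : Type) [Fintype V] (G : SimpleGraph V), 5 ≤ G.egirth ∨ C4Free G →
      (∀ k : ℕ, k₀ ≤ k →
        k ≤ (Finset.univ.filter (fun v => (1 + ε) * k ≤ ((nbr G v).card : ℝ))).card →
        k ≤ bChrom G) ∧
      (k₀ ≤ mDegree G → (1 - ε) * mDegree G ≤ bChrom G) :=
  slack_all ε hε

end Pool.Agent.Results.MP_0096d6_co.SlackDegrees
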