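import Pool.Agent.Helper95.BE.S9c

/-!
# Graphs of girth at least 5 whose dense vertices are spread out

There is `m₀` such that for every finite graph `G` of girth at least 5, and more generally for every
finite graph `G` without 4-cycles, with `m = m(G) ≥ m₀`, for `i = 0, 1` and every set `D` of at least
`m - i` vertices of degree at least `m - 1 - i` that contains all vertices of degree at least `m`: if
for every vertex `y` at most `|D| / 200` vertices of `D` other than `y`, and at most `m / 200` vertices
of degree at least `m` other than `y`, are at distance at most 2 from `y`, then `b(G) ≥ m - i`.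
-/

set_option autoImplicit false

namespace Pool.Agent.Results.MP_0096d6_co.SpreadOut

open Pool.Agent.Helper95.BC

/-- `x ≠ y` and the distance of `x` and `y` is at most 2 -/
def Near {V : Type} (G : SimpleGraph V) (y x : V) : Prop :=
  x ≠ y ∧ (G.Adj y x ∨ ∃ w, G.Adj y w ∧ G.Adj w x)

open Classical in
theorem result : ∃ m₀ : ℕ, ∀ (V : Type) [Fintype V] (G : SimpleGraph V),
    5 ≤ G.egirth ∨ C4Free G → m₀ ≤ mDegree G → ∀ (i : ℕ) (D : Finset V), i ≤ 1 →
    mDegree G ≤ D.card + i → (∀ v ∈ D, mDegree G ≤ (nbr G v).card + 1 + i) →
    (∀ v, mDegree G ≤ (nbr G v).card → v ∈ D) →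
    (∀ y, 200 * (D.filter (fun x => Near G y x)).card ≤ D.card) →
    (∀ y, 200 * (D.filter (fun x => mDegree G ≤ (nbr G x).card ∧ Near G y x)).card ≤
      mDegree G) → mDegree G ≤ bChrom G + i :=
  Pool.Agent.Helper95.BE.spread_all

end Pool.Agent.Results.MP_0096d6_co.SpreadOut
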